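import Mathlib
import Pool.Agent.V11219.NormalFunctor

/-!
Finitely square-skeletal normal functors are skeletal.
-/

namespace Pool.Agent.Results.MP_7a056a_gt.SquareSkeletal

open CategoryTheory CategoryTheory.Limits Topology TopologicalSpace Set
  Pool.Agent.V11219.CompFunctor

universe u

/-- The commutative square `f ∘ pX = pY ∘ f'` is skeletal: for every `x` in `X` and every (open)
neighbourhood `U` of `x` there is a nonempty open `V ⊆ f U` with `pY⁻¹ V ⊆ f' (pX⁻¹ U)`. -/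
def SkeletalSquare {X' Y' X Y : CompHaus.{u}} (f' : X' ⟶ Y') (f : X ⟶ Y) (pX : X' ⟶ X)
    (pY : Y' ⟶ Y) : Prop :=
  (∀ x, f (pX x) = pY (f' x)) ∧
    ∀ (x : X) (U : Set X), IsOpen U → x ∈ U →
      ∃ V : Set Y, IsOpen V ∧ V.Nonempty ∧ V ⊆ f '' U ∧ pY ⁻¹' V ⊆ f' '' (pX ⁻¹' U)

/-- `F` sends skeletal squares of surjections between finite compacta to skeletal squares. -/
def FinitelySquareSkeletal (F : CompHaus.{u} ⥤ CompHaus.{u}) : Prop :=
  ∀ ⦃X' Y' X Y : CompHaus.{u}⦄ (f' : X' ⟶ Y') (f : X ⟶ Y) (pX : X' ⟶ X) (pY : Y' ⟶ Y),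
    Finite X' → Finite Y' → Finite X → Finite Y →
    Function.Surjective f' → Function.Surjective f → Function.Surjective pX →
      Function.Surjective pY → SkeletalSquare f' f pX pY →
        SkeletalSquare (F.map f') (F.map f) (F.map pX) (F.map pY)

/-- Normal functors in the sense of Shchepin, with the conventions of the problem. -/
structure NormalFunctor (F : CompHaus.{u} ⥤ CompHaus.{u}) : Prop where
  monomorphic : Monomorphic F
  epimorphic : Epimorphic F
  continuous : ContinuousFunctor F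
  intersections : ∀ (X : CompHaus.{u}) (ι : Type u) [Nonempty ι] (Z : ι → Closeds X),
    subF F (⨅ i, Z i) = ⋂ i, subF F (Z i)
  empty : ∀ X : CompHaus.{u}, IsEmpty X → IsEmpty (F.obj X)
  point : ∀ X : CompHaus.{u}, Nonempty X ∧ Subsingleton X →
    Nonempty (F.obj X) ∧ Subsingleton (F.obj X)
  weight : ∀ X : CompHaus.{u}, Infinite X → weight (F.obj X) ≤ weight X
  preimages : ∀ ⦃X' Y' X Y : CompHaus.{u}⦄ (f' : X' ⟶ Y') (f : X ⟶ Y) (pX : X' ⟶ X)
    (pY : Y' ⟶ Y), Function.Injective f' → Function.Injective f → Bicommutative f' f pX pY →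
      Bicommutative (F.map f') (F.map f) (F.map pX) (F.map pY)

/-! ### Preliminaries -/

/-- Images of nonempty open sets contain nonempty open sets. -/
def Big {X Y : Type u} [TopologicalSpace X] [TopologicalSpace Y] (f : X → Y) : Prop :=
  ∀ U : Set X, IsOpen U → U.Nonempty → ∃ V ⊆ f '' U, IsOpen V ∧ V.Nonempty

/-- Build a morphism. -/
def hmk {X Y : CompHaus.{u}} (f : X → Y) (hf : Continuous f) : X ⟶ Y :=
  ConcreteCategory.ofHom (C := CompHaus.{u}) ⟨f, hf⟩

@[simp] lemma hmk_apply {X Y : CompHaus.{u}} (f : X → Y) (hf : Continuous f) (x : X) :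
    hmk f hf x = f x := rfl

lemma hext {X Y : CompHaus.{u}} {f g : X ⟶ Y} (h : ∀ x, f x = g x) : f = g :=
  ConcreteCategory.hom_ext _ _ h

lemma fcomp (F : CompHaus.{u} ⥤ CompHaus.{u}) {X Y Z : CompHaus.{u}} (f : X ⟶ Y) (g : Y ⟶ Z)
    (x : F.obj X) : F.map g (F.map f x) = F.map (f ≫ g) x := by
  rw [F.map_comp]
  rfl

instance t2_inst (X : CompHaus.{u}) : T2Space X := X.is_hausdorff

instance t1_inst (X : CompHaus.{u}) : T1Space X := @T2Space.t1Space X _ X.is_hausdorff

lemma isClosed_single {X : CompHaus.{u}} (x : X) : IsClosed ({x} : Set X) := isClosed_singleton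

instance discrete_of_finite {X : CompHaus.{u}} [Finite X] : DiscreteTopology X :=
  Finite.instDiscreteTopology

/-- A finite set as a compactum. -/
def dsc (α : Type u) [Finite α] : CompHaus.{u} :=
  letI : TopologicalSpace α := ⊥
  haveI : DiscreteTopology α := ⟨rfl⟩
  CompHaus.of α

instance (α : Type u) [Finite α] : DiscreteTopology (dsc α) := ⟨rfl⟩

instance (α : Type u) [Finite α] : Finite (dsc α) := inferInstanceAs (Finite α)

/-- Maps from finite sets. -/
def dhom {α : Type u} [Finite α] {X : CompHaus.{u}} (f : α → X) : dsc α ⟶ X :=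
  hmk (X := dsc α) f continuous_of_discreteTopology

/-- Maps to finite sets. -/
def chom {α : Type u} [Finite α] {X : CompHaus.{u}} (f : X → α) (hf : ∀ b, IsOpen (f ⁻¹' {b})) :
    X ⟶ dsc α :=
  hmk (Y := dsc α) f ((continuous_discrete_rng (β := dsc α)).2 hf)

/-- The finite quotient maps. -/
def projH {W : CompHaus.{u}} (S : DiscreteQuotient W) : W ⟶ CompHaus.of S :=
  hmk (Y := CompHaus.of S) S.proj S.proj_continuous

/-- The maps between finite quotients. -/
def leH {W : CompHaus.{u}} {S T : DiscreteQuotient W} (h : S ≤ T) :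
    CompHaus.of S ⟶ CompHaus.of T :=
  hmk (X := CompHaus.of S) (Y := CompHaus.of T) (DiscreteQuotient.ofLE h)
    (DiscreteQuotient.ofLE_continuous h)

/-- The inverse spectrum of finite quotients. -/
def quotD (W : CompHaus.{u}) : ((DiscreteQuotient W)ᵒᵈ)ᵒᵖ ⥤ CompHaus.{u} where
  obj j := CompHaus.of (OrderDual.ofDual j.unop : DiscreteQuotient W)
  map {i j} f := leH (S := OrderDual.ofDual i.unop) (T := OrderDual.ofDual j.unop)
    (leOfHom f.unop)
  map_id j := by
    refine hext fun x => ?_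
    exact DiscreteQuotient.ofLE_refl_apply x
  map_comp {i j k} f g := by
    refine hext fun x => ?_
    exact (DiscreteQuotient.ofLE_ofLE (leOfHom f.unop) (leOfHom g.unop) x).symm

/-- The cone of finite quotients. -/
def quotC (W : CompHaus.{u}) : Cone (quotD W) where
  pt := W
  π :=
    { app := fun j => projH (OrderDual.ofDual j.unop)
      naturality := by
        intro i j f
        refine hext fun x => ?_
        rfl }

lemma quotC_limit (W : CompHaus.{u}) [TotallyDisconnectedSpace W] :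
    Nonempty (IsLimit (quotC W)) := by
  rw [isLimit_iff]
  intro s hs
  obtain ⟨x, hx⟩ := DiscreteQuotient.exists_of_compat (X := W)
    (fun Q => (s (Opposite.op (OrderDual.toDual Q)) : Q)) (by
      intro A B h
      have h1 : OrderDual.toDual B ≤ OrderDual.toDual A := h
      exact hs (i := Opposite.op (OrderDual.toDual A)) (j := Opposite.op (OrderDual.toDual B))
        (homOfLE h1).op)
  refine ⟨x, fun j => hx (OrderDual.ofDual j.unop), ?_⟩
  intro y hy
  refine DiscreteQuotient.eq_of_forall_proj_eq (X := W) fun Q => ?_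
  have h2 := hy (Opposite.op (OrderDual.toDual Q))
  exact Eq.trans h2 (hx Q).symm

lemma sep {F : CompHaus.{u} ⥤ CompHaus.{u}} (hF : ContinuousFunctor F) (W : CompHaus.{u})
    [TotallyDisconnectedSpace W] {a b : F.obj W}
    (h : ∀ S : DiscreteQuotient W, F.map (projH S) a = F.map (projH S) b) : a = b := by
  obtain ⟨hc⟩ := quotC_limit W
  have hp := hF ((DiscreteQuotient W)ᵒᵈ)
  have h1 : IsLimit (F.mapCone (quotC W)) := isLimitOfPreserves F hc
  have h2 := (isLimit_iff (F.mapCone (quotC W))).1 ⟨h1⟩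
    (fun j => F.map (projH (OrderDual.ofDual j.unop)) b) (by
      intro i j f
      exact fcomp F (projH (OrderDual.ofDual i.unop))
        (leH (S := OrderDual.ofDual i.unop) (T := OrderDual.ofDual j.unop) (leOfHom f.unop)) b)
  exact h2.unique (fun j => h (OrderDual.ofDual j.unop)) (fun j => rfl)

/-- Finite quotients give a base. -/
lemma basis {F : CompHaus.{u} ⥤ CompHaus.{u}} (hF : ContinuousFunctor F) (W : CompHaus.{u})
    [TotallyDisconnectedSpace W] (a : F.obj W) {O : Set (F.obj W)} (hO : IsOpen O) (ha : a ∈ O) :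
    ∃ (S : DiscreteQuotient W) (O0 : Set (F.obj (CompHaus.of S))), IsOpen O0 ∧
      F.map (projH S) a ∈ O0 ∧ F.map (projH S) ⁻¹' O0 ⊆ O := by
  by_contra hcon
  let t : DiscreteQuotient W → Set (F.obj W) := fun S =>
    Oᶜ ∩ F.map (projH S) ⁻¹' {F.map (projH S) a}
  have htcl : ∀ S, IsClosed (t S) := fun S =>
    hO.isClosed_compl.inter ((isClosed_single _).preimage (continuous_hom _))
  have htn : ∀ S, (t S).Nonempty := by
    intro S
    by_contra hne
    refine hcon ⟨S, (F.map (projH S) '' Oᶜ)ᶜ, ?_, ?_, ?_⟩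
    · exact (hO.isClosed_compl.isCompact.image (continuous_hom _)).isClosed.isOpen_compl
    · rintro ⟨c, hc, hca⟩
      exact hne ⟨c, hc, hca⟩
    · intro c hc
      by_contra hcO
      exact hc ⟨c, hcO, rfl⟩
  have hmono : ∀ S T : DiscreteQuotient W, S ≤ T → t S ⊆ t T := by
    rintro S T hST c ⟨hc1, hc2⟩
    refine ⟨hc1, ?_⟩
    have hc2' : F.map (projH S) c = F.map (projH S) a := hc2
    have h3 : projH S ≫ leH hST = projH T := hext fun x => rfl
    show F.map (projH T) c = F.map (projH T) a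
    rw [← h3, ← fcomp, ← fcomp, hc2']
  obtain ⟨c, hc⟩ := IsCompact.nonempty_iInter_of_directed_nonempty_isCompact_isClosed t
    (directed_of_isDirected_ge hmono) htn (fun S => (htcl S).isCompact) htcl
  rw [mem_iInter] at hc
  have h4 : c = a := sep hF W fun S => (hc S).2
  exact (hc ⊤).1 (h4 ▸ ha)

/-- Finitely square-skeletal functors are finitely skeletal. -/
lemma fin_big {F : CompHaus.{u} ⥤ CompHaus.{u}} (hss : FinitelySquareSkeletal F)
    {A B : CompHaus.{u}} [Finite A] [Finite B] (h : A ⟶ B) (hs : Function.Surjective h)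
    {U : Set (F.obj A)} (hU : IsOpen U) (hne : U.Nonempty) :
    ∃ V : Set (F.obj B), IsOpen V ∧ V.Nonempty ∧ V ⊆ F.map h '' U := by
  have hsq : SkeletalSquare h h (𝟙 A) (𝟙 B) := by
    refine ⟨fun _ => rfl, fun x U _ hx => ⟨{h x}, isOpen_discrete _, ⟨h x, rfl⟩, ?_, ?_⟩⟩
    · rintro _ rfl
      exact ⟨x, hx, rfl⟩
    · intro y hy
      have hy' : y = h x := hy
      exact ⟨x, hx, hy'.symm⟩
  obtain ⟨a, ha⟩ := hne
  obtain ⟨V, hV, hVne, hVsub, -⟩ := (hss h h (𝟙 A) (𝟙 B) inferInstance inferInstance inferInstance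
    inferInstance hs hs Function.surjective_id Function.surjective_id hsq).2 a U hU ha
  exact ⟨V, hV, hVne, hVsub⟩

/-- Irreducible maps. -/
def Irr {X Y : Type u} [TopologicalSpace X] (f : X → Y) : Prop :=
  ∀ E₀ : Set X, E₀ ≠ univ → IsClosed E₀ → f '' E₀ ≠ univ

/-- `F r` is big for irreducible surjections `r` of a zero-dimensional compactum. -/
lemma big_of_irr {F : CompHaus.{u} ⥤ CompHaus.{u}} (hF : NormalFunctor F) {Z Y : CompHaus.{u}}
    [TotallyDisconnectedSpace Z] (r : Z ⟶ Y) (hrs : Function.Surjective r) (hirr : Irr r) :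
    Big (F.map r) := by
  rintro U hU ⟨a, haU⟩
  obtain ⟨S, O0, hO0, haO0, hO0U⟩ := basis hF.continuous Z a hU haU
  have hy : ∀ k : S, ∃ y : Y, ∀ z : Z, r z = y → S.proj z = k := by
    intro k
    have h1 : (S.proj ⁻¹' {k})ᶜ ≠ univ := by
      obtain ⟨z, hz⟩ := S.proj_surjective k
      intro h
      have h2 : z ∈ (S.proj ⁻¹' {k})ᶜ := by
        rw [h]
        exact mem_univ z
      exact h2 hz
    have h2 : IsClosed (S.proj ⁻¹' {k})ᶜ := (S.isOpen_preimage {k}).isClosed_compl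
    have h3 := hirr _ h1 h2
    obtain ⟨y, hy⟩ := (Set.ne_univ_iff_exists_notMem _).1 h3
    refine ⟨y, fun z hz => ?_⟩
    by_contra hne
    exact hy ⟨z, hne, hz⟩
  choose y hy using hy
  have hyinj : Function.Injective y := by
    intro k k' hkk
    obtain ⟨z, hz⟩ := hrs (y k)
    rw [← hy k z hz, ← hy k' z (hz.trans hkk)]
  let σ : CompHaus.of S ⟶ Y := hmk (X := CompHaus.of S) y continuous_of_discreteTopology
  let R : Closeds Y := ⟨range y, (Set.finite_range y).isClosed⟩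
  let pX : closedSub (preimageC r R) ⟶ CompHaus.of S := incl (preimageC r R) ≫ projH S
  have hcomm : ∀ x : closedSub (preimageC r R), σ (pX x) = r (incl (preimageC r R) x) := by
    rintro ⟨z, ⟨k, hk⟩⟩
    show y (S.proj z) = r z
    rw [hy k z hk.symm, hk]
  have hbi : Bicommutative (incl (preimageC r R)) σ pX r := by
    refine ⟨hcomm, fun k => ?_⟩
    ext z
    constructor
    · rintro ⟨x, hx, rfl⟩
      have hx' : pX x = k := hx
      show r _ = σ k
      rw [← hx', hcomm]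
    · intro hz
      have hz' : r z = y k := hz
      refine ⟨⟨z, ⟨k, hz'.symm⟩⟩, ?_, rfl⟩
      exact hy k z hz'
  have hFb := hF.preimages _ _ _ _ (show Function.Injective (incl (preimageC r R)) from
    Subtype.val_injective) (show Function.Injective σ from hyinj) hbi
  have key : ∀ c, F.map r c = F.map σ (F.map (projH S) a) →
      F.map (projH S) c = F.map (projH S) a := by
    intro c hc
    have h1 : c ∈ F.map r ⁻¹' {F.map σ (F.map (projH S) a)} := hc
    rw [← hFb.2 (F.map (projH S) a)] at h1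
    obtain ⟨c', hc', rfl⟩ := h1
    have hc'' : F.map pX c' = F.map (projH S) a := hc'
    rw [fcomp]
    exact hc''
  refine ⟨(F.map r '' Uᶜ)ᶜ, ?_,
    (hU.isClosed_compl.isCompact.image (continuous_hom _)).isClosed.isOpen_compl,
    ⟨F.map σ (F.map (projH S) a), ?_⟩⟩
  · intro v hv
    obtain ⟨c, rfl⟩ := hF.epimorphic r hrs v
    refine ⟨c, ?_, rfl⟩
    by_contra hcU
    exact hv ⟨c, hcU, rfl⟩
  · rintro ⟨c, hcU, hcb⟩
    refine hcU (hO0U ?_)
    show F.map (projH S) c ∈ O0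
    rw [key c hcb]
    exact haO0

/-- `F g` is big for open surjections `g` of zero-dimensional compacta. -/
lemma big_of_zero {F : CompHaus.{u} ⥤ CompHaus.{u}} (hepi : Epimorphic F)
    (hcont : ContinuousFunctor F) (hss : FinitelySquareSkeletal F) {W Z : CompHaus.{u}}
    [TotallyDisconnectedSpace W] [TotallyDisconnectedSpace Z] (g : W ⟶ Z) (hgo : IsOpenMap g)
    (hgs : Function.Surjective g) : Big (F.map g) := by
  classical
  rintro U hU ⟨a, haU⟩
  by_contra hcon
  obtain ⟨T, hT, hTcl, hTU⟩ := exists_mem_nhds_isClosed_subset (hU.mem_nhds haU)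
  obtain ⟨S, O0, hO0, haO0, hO0T⟩ := basis hcont W a isOpen_interior
    (mem_interior_iff_mem_nhds.2 hT)
  -- the level `0`
  let φ : Z → Set S := fun z => {k | ∃ w, S.proj w = k ∧ g w = z}
  have hφ : ∀ β, IsOpen (φ ⁻¹' {β}) := by
    intro β
    have h1 : φ ⁻¹' {β} = ⋂ k : S, (if k ∈ β then g '' (S.proj ⁻¹' {k})
        else (g '' (S.proj ⁻¹' {k}))ᶜ) := by
      ext z
      rw [mem_iInter]
      constructor
      · intro hz k
        have hz' : φ z = β := hz
        split_ifs with hk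
        · rw [← hz'] at hk
          obtain ⟨w, hw1, hw2⟩ := hk
          exact ⟨w, hw1, hw2⟩
        · rintro ⟨w, hw1, hw2⟩
          refine hk ?_
          rw [← hz']
          exact ⟨w, hw1, hw2⟩
      · intro hz
        show φ z = β
        ext k
        have hzk := hz k
        constructor
        · rintro ⟨w, hw1, hw2⟩
          by_contra hk
          rw [if_neg hk] at hzk
          exact hzk ⟨w, hw1, hw2⟩
        · intro hk
          rw [if_pos hk] at hzk
          obtain ⟨w, hw1, hw2⟩ := hzk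
          exact ⟨w, hw1, hw2⟩
    rw [h1]
    refine isOpen_iInter_of_finite fun k => ?_
    split_ifs with hk
    · exact hgo _ (S.isOpen_preimage {k})
    · exact ((S.isClosed_preimage {k}).isCompact.image (continuous_hom g)).isClosed.isOpen_compl
  let W0 : CompHaus.{u} := dsc {x : S × Set S // ∃ w : W, S.proj w = x.1 ∧ φ (g w) = x.2}
  let Z0 : CompHaus.{u} := dsc {β : Set S // ∃ z : Z, φ z = β}
  let p0f : W → {x : S × Set S // ∃ w : W, S.proj w = x.1 ∧ φ (g w) = x.2} :=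
    fun w => ⟨(S.proj w, φ (g w)), w, rfl, rfl⟩
  have hp0c : ∀ b, IsOpen (p0f ⁻¹' {b}) := by
    rintro ⟨⟨k, β⟩, h⟩
    have h1 : p0f ⁻¹' {⟨(k, β), h⟩} = S.proj ⁻¹' {k} ∩ g ⁻¹' (φ ⁻¹' {β}) := by
      ext w
      constructor
      · intro hw
        have hw' := congrArg Subtype.val (show p0f w = ⟨(k, β), h⟩ from hw)
        exact ⟨congrArg Prod.fst hw', congrArg Prod.snd hw'⟩
      · rintro ⟨h1, h2⟩
        exact Subtype.ext (Prod.ext h1 h2)
    rw [h1]
    exact (S.isOpen_preimage {k}).inter ((hφ β).preimage (continuous_hom g))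
  let p0 : W ⟶ W0 := chom p0f hp0c
  let q0f : Z → {β : Set S // ∃ z : Z, φ z = β} := fun z => ⟨φ z, z, rfl⟩
  have hq0c : ∀ b, IsOpen (q0f ⁻¹' {b}) := by
    rintro ⟨β, h⟩
    have h1 : q0f ⁻¹' {⟨β, h⟩} = φ ⁻¹' {β} := by
      ext z
      constructor
      · intro hz
        exact congrArg Subtype.val (show q0f z = ⟨β, h⟩ from hz)
      · intro hz
        exact Subtype.ext hz
    rw [h1]
    exact hφ β
  let q0 : Z ⟶ Z0 := chom q0f hq0c
  let g0 : W0 ⟶ Z0 := hmk (X := W0) (Y := Z0) (fun x => ⟨x.1.2, by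
    obtain ⟨w, -, hw⟩ := x.2
    exact ⟨g w, hw⟩⟩) continuous_of_discreteTopology
  let t : W0 ⟶ CompHaus.of S := hmk (X := W0) (Y := CompHaus.of S) (fun x => x.1.1)
    continuous_of_discreteTopology
  have hfull : ∀ (x : W0) (z : Z), q0 z = g0 x → ∃ w, p0 w = x ∧ g w = z := by
    rintro ⟨⟨k, β⟩, w, hw1, hw2⟩ z hz
    have hw1' : S.proj w = k := hw1
    have hw2' : φ (g w) = β := hw2
    have hz' : φ z = β := congrArg Subtype.val (show q0f z = ⟨β, _⟩ from hz)
    have h1 : k ∈ φ z := by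
      rw [hz', ← hw2']
      exact ⟨w, hw1', rfl⟩
    obtain ⟨w', hw1'', hw2''⟩ := h1
    refine ⟨w', ?_, hw2''⟩
    refine Subtype.ext (Prod.ext hw1'' ?_)
    show φ (g w') = β
    rw [hw2'', hz']
  have hg0s : Function.Surjective g0 := by
    rintro ⟨β, z, hz⟩
    obtain ⟨w, hw⟩ := hgs z
    refine ⟨p0 w, Subtype.ext ?_⟩
    show φ (g w) = β
    rw [hw, hz]
  have hp0s : Function.Surjective p0 := by
    rintro ⟨⟨k, β⟩, w, hw1, hw2⟩
    exact ⟨w, Subtype.ext (Prod.ext hw1 hw2)⟩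
  have hq0s : Function.Surjective q0 := by
    rintro ⟨β, z, hz⟩
    exact ⟨z, Subtype.ext hz⟩
  have hpt : p0 ≫ t = projH S := hext fun _ => rfl
  have hU0 : IsOpen (F.map t ⁻¹' O0) := hO0.preimage (continuous_hom _)
  have haU0 : F.map p0 a ∈ F.map t ⁻¹' O0 := by
    show F.map t (F.map p0 a) ∈ O0
    rw [fcomp, hpt]
    exact haO0
  have hU0T : ∀ c : F.obj W, F.map p0 c ∈ F.map t ⁻¹' O0 → c ∈ T := by
    intro c hc
    have hc' : F.map t (F.map p0 c) ∈ O0 := hc
    rw [fcomp, hpt] at hc'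
    exact interior_subset (hO0T hc')
  obtain ⟨V0, hV0, hV0ne, hV0s⟩ := fin_big hss g0 hg0s hU0 ⟨_, haU0⟩
  have hCcl : IsClosed (F.map g '' T) := (hTcl.isCompact.image (continuous_hom _)).isClosed
  have hN : ∃ b ∈ F.map q0 ⁻¹' V0, b ∉ F.map g '' T := by
    by_contra hno
    push Not at hno
    refine hcon ⟨F.map q0 ⁻¹' V0, fun b hb => image_mono hTU (hno b hb),
      hV0.preimage (continuous_hom _), ?_⟩
    obtain ⟨v, hv⟩ := hV0ne
    obtain ⟨b, rfl⟩ := hepi q0 hq0s v
    exact ⟨b, hv⟩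
  obtain ⟨b, hbV0, hbC⟩ := hN
  obtain ⟨S1, O1, hO1, hbO1, hO1s⟩ := basis hcont Z b
    ((hV0.preimage (continuous_hom (F.map q0))).inter hCcl.isOpen_compl) ⟨hbV0, hbC⟩
  -- the level `1`
  let Z1 : CompHaus.{u} := dsc {x : S1 × Z0 // ∃ z : Z, S1.proj z = x.1 ∧ q0 z = x.2}
  let q1f : Z → {x : S1 × Z0 // ∃ z : Z, S1.proj z = x.1 ∧ q0 z = x.2} :=
    fun z => ⟨(S1.proj z, q0 z), z, rfl, rfl⟩
  have hq1c : ∀ b, IsOpen (q1f ⁻¹' {b}) := by
    rintro ⟨⟨k, β⟩, h⟩
    have h1 : q1f ⁻¹' {⟨(k, β), h⟩} = S1.proj ⁻¹' {k} ∩ q0 ⁻¹' {β} := by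
      ext z
      constructor
      · intro hz
        have hz' := congrArg Subtype.val (show q1f z = ⟨(k, β), h⟩ from hz)
        exact ⟨congrArg Prod.fst hz', congrArg Prod.snd hz'⟩
      · rintro ⟨h1, h2⟩
        exact Subtype.ext (Prod.ext h1 h2)
    rw [h1]
    exact (S1.isOpen_preimage {k}).inter ((isOpen_discrete _).preimage (continuous_hom q0))
  let q1 : Z ⟶ Z1 := chom q1f hq1c
  let t1 : Z1 ⟶ CompHaus.of S1 := hmk (X := Z1) (Y := CompHaus.of S1) (fun x => x.1.1)
    continuous_of_discreteTopology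
  let π : Z1 ⟶ Z0 := hmk (X := Z1) (Y := Z0) (fun x => x.1.2) continuous_of_discreteTopology
  have hq1s : Function.Surjective q1 := by
    rintro ⟨⟨k, β⟩, z, hz1, hz2⟩
    exact ⟨z, Subtype.ext (Prod.ext hz1 hz2)⟩
  have hπs : Function.Surjective π := by
    intro β
    obtain ⟨z, hz⟩ := hq0s β
    exact ⟨q1 z, hz⟩
  have hqt1 : q1 ≫ t1 = projH S1 := hext fun _ => rfl
  have hqπ : q1 ≫ π = q0 := hext fun _ => rfl
  have hO1' : IsOpen (F.map t1 ⁻¹' O1) := hO1.preimage (continuous_hom _)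
  obtain ⟨V1, hV1, hV1ne, hV1s⟩ := fin_big hss π hπs hO1' ⟨F.map q1 b, by
    show F.map t1 (F.map q1 b) ∈ O1
    rw [fcomp, hqt1]
    exact hbO1⟩
  have hV1V0 : V1 ⊆ V0 := by
    intro v hv
    obtain ⟨o, ho, rfl⟩ := hV1s hv
    obtain ⟨z, rfl⟩ := hepi q1 hq1s o
    have ho' : F.map t1 (F.map q1 z) ∈ O1 := ho
    rw [fcomp, hqt1] at ho'
    have h2 : F.map q0 z ∈ V0 := (hO1s ho').1
    rw [fcomp, hqπ]
    exact h2
  let U1 : Set (F.obj W0) := F.map t ⁻¹' O0 ∩ F.map g0 ⁻¹' V1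
  have hU1 : IsOpen U1 := hU0.inter (hV1.preimage (continuous_hom _))
  obtain ⟨v1, hv1⟩ := hV1ne
  obtain ⟨x1, hx1, hx1v⟩ := hV0s (hV1V0 hv1)
  have hx1U1 : x1 ∈ U1 := ⟨hx1, by
    show F.map g0 x1 ∈ V1
    rw [hx1v]
    exact hv1⟩
  let W1 : CompHaus.{u} := dsc {x : W0 × Z1 // g0 x.1 = π x.2}
  let g1 : W1 ⟶ Z1 := hmk (X := W1) (Y := Z1) (fun x => x.1.2) continuous_of_discreteTopology
  let ρ : W1 ⟶ W0 := hmk (X := W1) (Y := W0) (fun x => x.1.1) continuous_of_discreteTopology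
  let p1f : W → {x : W0 × Z1 // g0 x.1 = π x.2} := fun w => ⟨(p0 w, q1 (g w)), rfl⟩
  have hp1c : ∀ b, IsOpen (p1f ⁻¹' {b}) := by
    rintro ⟨⟨k, β⟩, h⟩
    have h1 : p1f ⁻¹' {⟨(k, β), h⟩} = p0 ⁻¹' {k} ∩ g ⁻¹' (q1 ⁻¹' {β}) := by
      ext w
      constructor
      · intro hw
        have hw' := congrArg Subtype.val (show p1f w = ⟨(k, β), h⟩ from hw)
        exact ⟨congrArg Prod.fst hw', congrArg Prod.snd hw'⟩
      · rintro ⟨h1, h2⟩
        exact Subtype.ext (Prod.ext h1 h2)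
    rw [h1]
    exact ((isOpen_discrete _).preimage (continuous_hom p0)).inter
      (((isOpen_discrete _).preimage (continuous_hom q1)).preimage (continuous_hom g))
  let p1 : W ⟶ W1 := chom p1f hp1c
  have hp1s : Function.Surjective p1 := by
    rintro ⟨⟨x, y⟩, hxy⟩
    obtain ⟨z, rfl⟩ := hq1s y
    obtain ⟨w, hw1, hw2⟩ := hfull x z (show q0 z = g0 x from Eq.symm hxy)
    refine ⟨w, Subtype.ext (Prod.ext hw1 ?_)⟩
    show q1 (g w) = q1 z
    rw [hw2]
  have hg1s : Function.Surjective g1 := by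
    intro y
    obtain ⟨x, hx⟩ := hg0s (π y)
    exact ⟨⟨(x, y), hx⟩, rfl⟩
  have hρs : Function.Surjective ρ := by
    intro x
    obtain ⟨y, hy⟩ := hπs (g0 x)
    exact ⟨⟨(x, y), hy.symm⟩, rfl⟩
  have hsq : SkeletalSquare g1 g0 ρ π := by
    refine ⟨fun x => x.2, fun x U _ hx => ⟨{g0 x}, isOpen_discrete _, ⟨g0 x, rfl⟩, ?_, ?_⟩⟩
    · rintro _ rfl
      exact ⟨x, hx, rfl⟩
    · intro y hy
      have hy' : π y = g0 x := hy
      exact ⟨⟨(x, y), hy'.symm⟩, hx, rfl⟩
  obtain ⟨V, hV, ⟨v, hv⟩, hVs, hVpre⟩ := (hss g1 g0 ρ π inferInstance inferInstance inferInstance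
    inferInstance hg1s hg0s hρs hπs hsq).2 x1 U1 hU1 hx1U1
  have hvV1 : v ∈ V1 := by
    obtain ⟨x, hx, rfl⟩ := hVs hv
    exact hx.2
  obtain ⟨o, ho, rfl⟩ := hV1s hvV1
  obtain ⟨u1, hu1, hu1o⟩ := hVpre hv
  obtain ⟨c, rfl⟩ := hepi p1 hp1s u1
  have hpρ : p1 ≫ ρ = p0 := hext fun _ => rfl
  have hpg : p1 ≫ g1 = g ≫ q1 := hext fun _ => rfl
  have hcT : c ∈ T := by
    have h1 : F.map ρ (F.map p1 c) ∈ U1 := hu1
    rw [fcomp, hpρ] at h1
    exact hU0T c h1.1
  have h2 : F.map (projH S1) (F.map g c) ∈ O1 := by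
    rw [fcomp, hpg, ← fcomp] at hu1o
    rw [← hqt1, ← fcomp, hu1o]
    exact ho
  exact (hO1s h2).2 ⟨c, hcT, rfl⟩

/-! ### Covers -/

/-- Gleason covers. -/
lemma exists_cover (Y : CompHaus.{u}) : ∃ (Z : CompHaus.{u}) (r : Z ⟶ Y),
    ExtremallyDisconnected Z ∧ Function.Surjective r ∧ Irr r := by
  let D : CompHaus.{u} := Stonean.toCompHaus.obj Y.presentation
  have hD : ExtremallyDisconnected D := Y.presentation.prop
  let π : D ⟶ Y := CompHaus.presentation.π Y
  have hπs : Function.Surjective π := (CompHaus.epi_iff_surjective _).1 inferInstance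
  have hπc : Continuous π := continuous_hom π
  obtain ⟨E, hE, hEs, hEirr⟩ := exists_compact_surjective_zorn_subset hπc hπs
  let Z : CompHaus.{u} := CompHaus.of E
  let r : Z ⟶ Y := hmk (X := Z) (fun e : E => π e.1) (hπc.comp continuous_subtype_val)
  have hrs : Function.Surjective r := by
    intro y
    obtain ⟨e, he, hey⟩ := (hEs ▸ mem_univ y : y ∈ π '' E)
    exact ⟨⟨e, he⟩, hey⟩
  have hirr : Irr r := hEirr
  have hproj : CompactT2.Projective D := CompactT2.ExtremallyDisconnected.projective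
  obtain ⟨h, hh, hrh⟩ := hproj hπc (continuous_hom r) hrs
  have hid : ∀ e : Z, h e.1 = e := by
    intro e
    by_contra hne
    obtain ⟨A, B, hA, hB, hxA, hyB, hAB⟩ := t2_separation (Ne.symm hne)
    have hhc : Continuous fun e : Z => h e.1 := hh.comp continuous_subtype_val
    have hNo : IsOpen (A ∩ (fun e : Z => h e.1) ⁻¹' B) := hA.inter (hB.preimage hhc)
    refine hirr (A ∩ (fun e : Z => h e.1) ⁻¹' B)ᶜ ?_ hNo.isClosed_compl ?_
    · rw [Set.compl_ne_univ]
      exact ⟨e, hxA, hyB⟩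
    · refine eq_univ_of_forall fun y => ?_
      obtain ⟨x, rfl⟩ := hrs y
      by_cases hx : x ∈ A ∩ (fun e : Z => h e.1) ⁻¹' B
      · refine ⟨h x.1, ?_, ?_⟩
        · intro h3
          exact Set.disjoint_left.1 hAB h3.1 hx.2
        · exact congrFun hrh x.1
      · exact ⟨x, hx, rfl⟩
  have hZ : CompactT2.Projective Z := by
    intro Y' Z' _ _ _ _ _ _ f g' hf hg' hs
    obtain ⟨l, hl, hgl⟩ := hproj (f := fun d => f (h d)) (hf.comp hh) hg' hs
    refine ⟨fun e => l e.1, hl.comp continuous_subtype_val, ?_⟩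
    ext e
    have h4 := congrFun hgl e.1
    show g' (l e.1) = f e
    rw [← hid e]
    have h5 : g' (l e.1) = f (h e.1) := h4
    rw [hid e] at h5 ⊢
    exact h5
  exact ⟨Z, r, hZ.extremallyDisconnected, hrs, hirr⟩

/-- Compositions of irreducible and open maps onto extremally disconnected compacta are open. -/
lemma isOpenMap_comp {W V Z : CompHaus.{u}} [TotallyDisconnectedSpace W]
    (hZ : ExtremallyDisconnected Z) (m : W ⟶ V) (hms : Function.Surjective m) (hirr : Irr m)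
    (h : V ⟶ Z) (ho : IsOpenMap h) : IsOpenMap (m ≫ h) := by
  rw [(isTopologicalBasis_isClopen (X := W)).isOpenMap_iff]
  intro A hA
  have hA' : IsClopen A := hA
  have hmc := continuous_hom m
  have hhc := continuous_hom h
  have hG : IsOpen ((m '' Aᶜ)ᶜ) :=
    (hA'.isOpen.isClosed_compl.isCompact.image hmc).isClosed.isOpen_compl
  have h1 : (m ≫ h) '' A = closure (h '' ((m '' Aᶜ)ᶜ)) := by
    apply Subset.antisymm
    · rintro _ ⟨w, hw, rfl⟩
      have h2 := image_subset_closure_compl_image_compl_of_isOpen hmc hms hirr hA'.isOpen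
        (mem_image_of_mem m hw)
      exact image_closure_subset_closure_image hhc (mem_image_of_mem h h2)
    · refine closure_minimal ?_ ?_
      · rintro _ ⟨v, hv, rfl⟩
        obtain ⟨w, rfl⟩ := hms v
        refine ⟨w, ?_, rfl⟩
        by_contra hw
        exact hv ⟨w, hw, rfl⟩
      · exact (hA'.isClosed.isCompact.image (continuous_hom (m ≫ h))).isClosed
  rw [h1]
  exact hZ.open_closure _ (ho _ hG)

/-- `F f` is big for all open surjections. -/
lemma big_of_open {F : CompHaus.{u} ⥤ CompHaus.{u}} (hF : NormalFunctor F)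
    (hss : FinitelySquareSkeletal F) {X Y : CompHaus.{u}} (f : X ⟶ Y) (hfo : IsOpenMap f)
    (hfs : Function.Surjective f) : Big (F.map f) := by
  obtain ⟨Z, r, hZ, hrs, hr⟩ := exists_cover Y
  have hcl : IsClosed {p : X × Z | f p.1 = r p.2} :=
    isClosed_eq ((continuous_hom f).comp continuous_fst) ((continuous_hom r).comp continuous_snd)
  have hcomp : CompactSpace {p : X × Z // f p.1 = r p.2} :=
    isCompact_iff_compactSpace.1 hcl.isCompact
  let V : CompHaus.{u} := CompHaus.of {p : X × Z // f p.1 = r p.2}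
  let a : V ⟶ X := hmk (X := V) (fun v => v.1.1) (continuous_fst.comp continuous_subtype_val)
  let b : V ⟶ Z := hmk (X := V) (fun v => v.1.2) (continuous_snd.comp continuous_subtype_val)
  have has : Function.Surjective a := by
    intro x
    obtain ⟨z, hz⟩ := hrs (f x)
    exact ⟨⟨(x, z), hz.symm⟩, rfl⟩
  have hbs : Function.Surjective b := by
    intro z
    obtain ⟨x, hx⟩ := hfs (r z)
    exact ⟨⟨(x, z), hx⟩, rfl⟩
  have hbo : IsOpenMap b := by
    intro G hG
    obtain ⟨G', hG', hGG⟩ := isOpen_induced_iff.1 hG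
    rw [isOpen_iff_mem_nhds]
    rintro _ ⟨⟨⟨x, z⟩, hxz⟩, hv, rfl⟩
    have h1 : (x, z) ∈ G' := by
      rw [← hGG] at hv
      exact hv
    obtain ⟨A, B, hA, hxA, hB, hzB, hAB⟩ := mem_nhds_prod_iff'.1 (hG'.mem_nhds h1)
    have h2 : IsOpen (B ∩ r ⁻¹' (f '' A)) := hB.inter ((hfo _ hA).preimage (continuous_hom r))
    refine Filter.mem_of_superset (h2.mem_nhds ⟨hzB, ⟨x, hxA, hxz⟩⟩) ?_
    rintro z1 ⟨hz1, x1, hx1, hx1z⟩
    refine ⟨⟨(x1, z1), hx1z⟩, ?_, rfl⟩
    rw [← hGG]
    exact hAB (mk_mem_prod hx1 hz1)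
  obtain ⟨W, m, hW, hms, hm⟩ := exists_cover V
  have hgo : IsOpenMap (m ≫ b) := isOpenMap_comp hZ m hms hm b hbo
  have hgs : Function.Surjective (m ≫ b) := hbs.comp hms
  have h1 : Big (F.map (m ≫ b)) := big_of_zero hF.epimorphic hF.continuous hss (m ≫ b) hgo hgs
  have h2 : Big (F.map r) := big_of_irr hF r hrs hr
  rintro U hU ⟨u, hu⟩
  have hUo : IsOpen (F.map (m ≫ a) ⁻¹' U) := hU.preimage (continuous_hom _)
  obtain ⟨w, hw⟩ := hF.epimorphic (m ≫ a) (has.comp hms) u
  obtain ⟨V1, hV1s, hV1, hV1ne⟩ := h1 _ hUo ⟨w, by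
    show F.map (m ≫ a) w ∈ U
    rw [hw]
    exact hu⟩
  obtain ⟨V2, hV2s, hV2, hV2ne⟩ := h2 V1 hV1 hV1ne
  refine ⟨V2, ?_, hV2, hV2ne⟩
  intro y hy
  obtain ⟨z, hz, rfl⟩ := hV2s hy
  obtain ⟨w', hw', rfl⟩ := hV1s hz
  refine ⟨F.map (m ≫ a) w', hw', ?_⟩
  rw [fcomp, fcomp]
  have h3 : (m ≫ a) ≫ f = (m ≫ b) ≫ r := hext fun w => (m w).2
  rw [h3]

/-- Every finitely square-skeletal normal functor is skeletal. -/
theorem result (F : CompHaus.{u} ⥤ CompHaus.{u}) (hF : NormalFunctor F)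
    (hss : FinitelySquareSkeletal F) : SkeletalFunctor F := by
  intro X Y f hfo hfs
  exact skeletalMap_of (continuous_hom (F.map f)) (big_of_open hF hss f hfo hfs)

end Pool.Agent.Results.MP_7a056a_gt.SquareSkeletal
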